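import Mathlib
import Pool.Agent.N230.FC.Big

/-!
# Potential density of double covers over curves and over other bases

Let `k` be an algebraically closed field of characteristic zero, for instance the field of algebraic numbers, `B` a
variety over `k`, and `X → B` a family of double covers of products of projective spaces: `X` is given by

`w² = f(t; x₁, …, x_m)`, where `f` is an irreducible polynomial with coefficients in the function field `F = k(B)`,
of degree at most two in a block `t` of variables (which occurs in `f`), and of degree at most four in each block
`x₁, …, x_m`.

The coefficients are arbitrary rational functions on `B`. We show, for all varieties `X'` with dominant rational maps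
`X ⇢ X' ⇢ B` over `B` (for instance `X' = X`), that `X'` is dominated, over `B`, by the product of `B` with an affine
space, and that `X'` is potentially dense if and only if `B` is, in the following cases:

(1) `B` is a curve, of any genus;

(2) `B` is of any dimension `r`, there are more than `2 ^ r - 2` variables in the block `t`, and the quadratic
polynomial `f(t)` is nondegenerate;

(3) `B` is of any dimension, and `X → B` has a general rational section: the section is not in a certain proper closed
subset `g = 0`, which depends on `f` only.

Here potentially dense means that the points with coordinates in some finitely generated subfield of `k` are Zariski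
dense; for `k` the field of algebraic numbers the finitely generated subfields are the number fields.

A variety dominated by `B × 𝔸ⁿ` over `B` is special in the sense of Campana if and only if `B` is special. So the
conjecture (special if and only if potentially dense) for `X'` is equivalent to the conjecture for `B`. If `B` is a
curve it is known: `X'` is special and potentially dense if the genus of `B` is zero or one, and neither special nor
potentially dense if the genus is at least two. For `B` of genus one these varieties are not rationally connected. In
(2) the base can be for instance an abelian variety.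

Proof. A general point of the quadric bundle `X`, with coordinates in `F`, is moved by the conics in the direction of
`t` and by the parabolas which osculate the curves of genus one `w² = quartic`; this gives a point with algebraically
independent coordinates in `F(s₁, …, sₙ)`. Such a point exists in (1) by Tsen's theorem and in (2) by Lang's theorem,
since the fibre of `X` over a general constant point `x` is a quadric over `F`.
-/

set_option autoImplicit false

namespace Pool.Agent.Results.MP_9410e4_ag.DoubleCoversOverCurves

open MvPolynomial Matrix

universe u v

section defs

variable {k : Type u} [Field k] {K : Type v} [Field K] [Algebra k K] {M : ℕ}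

/-- `p` is a point, with coordinates in `k`, of the affine variety `X` with the generic point `x`: it satisfies all
the equations over `k` which are satisfied by `x`. -/
def IsPoint (x : Fin M → K) (p : Fin M → k) : Prop :=
  ∀ H : MvPolynomial (Fin M) k, aeval x H = 0 → eval p H = 0

/-- The points of `X` with coordinates in some finitely generated subfield of `k` are Zariski dense in `X`: for every
polynomial `G` over `k` which does not vanish on `X` there is such a point at which `G` does not vanish. This property
is the same for all varieties with the same function field. -/
def PotentiallyDense (k : Type u) [Field k] {K : Type v} [Field K] [Algebra k K] {M : ℕ} (x : Fin M → K) : Prop :=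
  ∃ T : Finset k, ∀ G : MvPolynomial (Fin M) k, aeval x G ≠ 0 →
    ∃ p : Fin M → k, (∀ i, p i ∈ Subfield.closure (T : Set k)) ∧ IsPoint x p ∧ eval p G ≠ 0

/-- The varieties `X'` with function field `E ≤ K` over `B`, where `y` is the generic point of `B`, `F` the function
field of `B` and `K` the function field of `X`, are dominated over `B` by the product of `B` with an affine space, and
they are potentially dense if and only if `B` is potentially dense. -/
def SameDensity (k : Type u) [Field k] {F : Type v} [Field F] [Algebra k F] {M : ℕ} (y : Fin M → F)
    (K : Type v) [Field K] [Algebra F K] : Prop :=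
  ∀ (E : Type v) [Field E] [Algebra k E] [Algebra F E] [IsScalarTower k F E] (_ : E →ₐ[F] K),
    (∃ n, Nonempty (E →ₐ[F] FractionRing (MvPolynomial (Fin n) F))) ∧
    ∀ (M' : ℕ) (z : Fin M' → E), IntermediateField.adjoin k (Set.range z) = ⊤ →
      (PotentiallyDense k z ↔ PotentiallyDense k y)

/-- The vector of `1` and the variables of the block `0`; `b i` is the block of the variable `i`. -/
noncomputable def blockVector {F : Type u} [Field F] {N m : ℕ} (b : Fin N → Fin (m + 1)) :
    Option {i : Fin N // b i = 0} → MvPolynomial (Fin N) F
  | none => 1
  | some i => X (i : Fin N)

/-- The polynomial `f` is a nondegenerate quadratic polynomial in the variables of the block `0`: `f = ᵗY D Y`, where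
`Y` is the vector of `1` and these variables, and `D` a symmetric matrix of polynomials in the other variables with a
nonzero determinant. -/
def NondegenerateQuadratic {F : Type u} [Field F] {N m : ℕ} (b : Fin N → Fin (m + 1)) (f : MvPolynomial (Fin N) F) :
    Prop :=
  ∃ D : Matrix (Option {i : Fin N // b i = 0}) (Option {i : Fin N // b i = 0}) (MvPolynomial (Fin N) F),
    D.IsSymm ∧ (∀ a a' i, b i = 0 → degreeOf i (D a a') = 0) ∧ D.det ≠ 0 ∧
    f = blockVector b ⬝ᵥ D *ᵥ blockVector b

end defs

/-- Let `F` be the function field, and `y` the generic point, of a variety `B` over `k`. Let the `N` variables be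
divided in the block `0` and the blocks `j.succ`, `j < m`; `b i` is the block of the variable `i`. Let `f` be an
irreducible polynomial over `F` of degree at most two in the variables of the block `0`, which occur in `f`, and of
degree at most four in the variables of each block `j.succ`, and let `K = F(x, w)` be the function field of the double
cover `w² = f(x)`, where `x₁, …, x_N` are algebraically independent over `F`.
(1) If `B` is a curve (or a point), then `SameDensity k y K`. (2) If `B` has dimension at most `r`, if `f` is a
nondegenerate quadratic polynomial in the block `0`, and if this block has more than `2 ^ r - 2` variables, then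
`SameDensity k y K`. (3) There is a nonzero polynomial `g` over `F` such that `SameDensity k y K` if there is a point
`(p, v)` of the double cover with coordinates in `F` (a rational section over `B`) with `g(p) ≠ 0`. -/
theorem result (k : Type) [Field k] [IsAlgClosed k] [CharZero k] (F : Type) [Field F] [Algebra k F] {M : ℕ}
    (y : Fin M → F) (hy : IntermediateField.adjoin k (Set.range y) = ⊤) {N m : ℕ} (b : Fin N → Fin (m + 1))
    (f : MvPolynomial (Fin N) F) (hf : Irreducible f)
    (h₂ : ∀ d ∈ f.support, ∑ i with b i = 0, d i ≤ 2)
    (h₄ : ∀ d ∈ f.support, ∀ j : Fin m, ∑ i with b i = j.succ, d i ≤ 4)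
    (h₀ : ∃ i, b i = 0 ∧ degreeOf i f ≠ 0)
    (K : Type) [Field K] [Algebra F K] (x : Fin N → K) (hx : AlgebraicIndependent F x) (w : K)
    (hw : w ^ 2 = aeval x f) (hK : IntermediateField.adjoin F (insert w (Set.range x)) = ⊤) :
    (Algebra.trdeg k F ≤ 1 → SameDensity k y K) ∧
    (∀ r : ℕ, Algebra.trdeg k F ≤ r → 2 ^ r < Fintype.card {i : Fin N // b i = 0} + 2 →
      NondegenerateQuadratic b f → SameDensity k y K) ∧
    ∃ g : MvPolynomial (Fin N) F, g ≠ 0 ∧
      ((∃ (p : Fin N → F) (v : F), v ^ 2 = eval p f ∧ eval p g ≠ 0) → SameDensity k y K) := by
  have hcF : CharZero F := charZero_of_injective_algebraMap (algebraMap k F).injective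
  have key : (∃ n, Nonempty (K →ₐ[F] FractionRing (MvPolynomial (Fin n) F))) → SameDensity k y K := by
    rintro ⟨n, ⟨σ⟩⟩ E _ _ _ _ τ
    exact ⟨⟨n, ⟨σ.comp τ⟩⟩, fun M' z hz => Pool.Agent.N230.FC.pd_iff hy hz (σ.comp τ)⟩
  refine ⟨fun htr => key (Pool.Agent.N230.FC.dom_of_conic (Pool.Agent.N230.FC.conic_trdeg htr) b hf h₂ h₄ h₀ hx hw
    hK), ?_, ?_⟩
  · rintro r hr hcard ⟨D, hDs, hD0, hDd, hfD⟩
    have hY : (blockVector b : Option {i : Fin N // b i = 0} → MvPolynomial (Fin N) F) = Pool.Agent.N230.FC.Yv b := by
      funext a
      rcases a with _ | a
      · rfl
      · rfl
    rw [hY] at hfD
    exact key (Pool.Agent.N230.FC.dom_of_big b hf h₂ h₄ h₀ hr hcard D hDs hD0 hDd hfD hx hw hK)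
  · obtain ⟨g, hg, h⟩ := Pool.Agent.N230.FC.dom_of_pt b hf h₂ h₄ h₀ hx hw hK
    exact ⟨g, hg, fun hp => key (h hp)⟩

end Pool.Agent.Results.MP_9410e4_ag.DoubleCoversOverCurves
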