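import Pool.Agent.N470.RW.FinG

set_option autoImplicit false

/-!
# Random words on varieties which are not uniruled

Let `X` be the integral closed subvariety of projective `n`-space over a field `k` of characteristic
zero (for instance algebraically closed) given by the forms in the finite set `FF`.  For a field
`K ⊇ k`, invertible `r × r` matrices `A₁, …, A_s`, a matrix `M` with `n + 1` rows, and a vector `v`
over `K`, a word `w` of length `m` in the letters `1, …, s` represents the point with homogeneous
coordinates `M A_{w 0} ⋯ A_{w (m - 1)} v`, if this vector is not zero.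

(1) If `X` is not uniruled (for instance of general type and of positive dimension), then for every
`r` there is ONE hypersurface `G = 0` not containing `X` such that for ALL fields `K ⊇ k`, all
`s ≥ 1` and all `A₁, …, A_s` in `GL_r(K)` there is a number `B` with the following property: for all
`M` and `v` there is a set `E` of at most `B` points such that, for all `N ≥ 1`, the mean over the
lengths `m < N` of the proportion of the words of length `m` which represent points of `X` neither
on `G = 0` nor in `E` is at most `6 s N ^ (-c)`, where `c = (1 / 2) ^ (binom (r + d) d + 2)` and `d`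
bounds the degrees of the forms.  If `K` is a number field, `B` divides the product of the orders of
`GL_r(𝔽_{2^f})` and `GL_r(𝔽_{3^f})` for `f ≤ [K : ℚ]`.

(2) If `X` is uniruled, this fails: for some `r` and for every hypersurface `G = 0` not containing
`X` there are a finite extension `K` of `k` and `A` in `GL_r(K)`, `M` and `v` such that for every
finite set `E` and all but finitely many `m` the vector `M A ^ m v` represents a point of `X`
neither on `G = 0` nor in `E`.
-/

namespace Pool.Agent.Results.MP_9410e4_ag.RandomWords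

open MvPolynomial Pool.Agent.H533R3.SL Pool.Agent.TH717.GO

variable {n r s : ℕ} {k K : Type} [Field k] [Field K] [Algebra k K]

/-- the homogeneous coordinates `M A_{w 0} ⋯ A_{w (m - 1)} v` of the point represented by a word -/
def wordVec (M : Matrix (Fin (n + 1)) (Fin r) K) (A : Fin s → Matrix.GeneralLinearGroup (Fin r) K)
    (v : Fin r → K) {m : ℕ} (w : Fin m → Fin s) : Fin (n + 1) → K :=
  M.mulVec ((((List.ofFn fun i => A (w i)).prod : Matrix.GeneralLinearGroup (Fin r) K) :
    Matrix (Fin r) (Fin r) K).mulVec v)

/-- the words of length `m` which represent points of the zero set `X` of `FF` which are neither on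
the hypersurface `G = 0` nor in `E` -/
def wordsOff (FF : Finset (MvPolynomial (Fin (n + 1)) k)) (G : MvPolynomial (Fin (n + 1)) k)
    (M : Matrix (Fin (n + 1)) (Fin r) K) (A : Fin s → Matrix.GeneralLinearGroup (Fin r) K)
    (v : Fin r → K) (E : Set (Projectivization K (Fin (n + 1) → K))) (m : ℕ) :
    Set (Fin m → Fin s) :=
  {w | (∀ F ∈ FF, aeval (wordVec M A v w) F = 0) ∧ aeval (wordVec M A v w) G ≠ 0 ∧
    ∃ h : wordVec M A v w ≠ 0, Projectivization.mk K (wordVec M A v w) h ∉ E}

/-- for every finite set of invertible `r × r` matrices, the words rarely represent points of `X`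
off the hypersurface `G = 0`, except for a bounded number of points -/
def RareOff (FF : Finset (MvPolynomial (Fin (n + 1)) k)) (G : MvPolynomial (Fin (n + 1)) k)
    (r : ℕ) : Prop :=
  ∀ (K : Type) [Field K] [Algebra k K] (s d : ℕ) (A : Fin s → Matrix.GeneralLinearGroup (Fin r) K),
    1 ≤ s → (∀ F ∈ FF, F.totalDegree ≤ d) →
    ∃ B : ℕ, (∀ [NumberField K], B ∣ bd r (Module.finrank ℚ K)) ∧
      ∀ (M : Matrix (Fin (n + 1)) (Fin r) K) (v : Fin r → K),
      ∃ E : Set (Projectivization K (Fin (n + 1) → K)), E.encard ≤ B ∧ ∀ N : ℕ, 1 ≤ N →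
        (∑ m ∈ Finset.range N, ((wordsOff FF G M A v E m).ncard : ℝ) / s ^ m) / N ≤
          6 * s * (N : ℝ) ^ (-(1 / 2 : ℝ) ^ ((r + d).choose d + 2))

theorem result (k : Type) [Field k] [CharZero k] (n : ℕ)
    (FF : Finset (MvPolynomial (Fin (n + 1)) k)) (hhom : ∀ F ∈ FF, ∃ e, F.IsHomogeneous e)
    (hprime : (Ideal.span (FF : Set (MvPolynomial (Fin (n + 1)) k))).IsPrime) :
    (¬ Uniruled (Ideal.span (FF : Set (MvPolynomial (Fin (n + 1)) k))) → ∀ r : ℕ,
      ∃ G : MvPolynomial (Fin (n + 1)) k, (∃ e, G.IsHomogeneous e) ∧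
        G ∉ Ideal.span (FF : Set (MvPolynomial (Fin (n + 1)) k)) ∧ RareOff FF G r) ∧
    (Uniruled (Ideal.span (FF : Set (MvPolynomial (Fin (n + 1)) k))) → ∃ r : ℕ,
      ∀ G : MvPolynomial (Fin (n + 1)) k, (∃ e, G.IsHomogeneous e) →
        G ∉ Ideal.span (FF : Set (MvPolynomial (Fin (n + 1)) k)) →
        ∃ (K : Type) (_ : Field K) (_ : Algebra k K) (_ : Module.Finite k K)
          (A : Matrix.GeneralLinearGroup (Fin r) K) (M : Matrix (Fin (n + 1)) (Fin r) K)
          (v : Fin r → K), ∀ E : Set (Projectivization K (Fin (n + 1) → K)), E.Finite →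
            {m : ℕ | wordsOff FF G M (fun _ : Fin 1 => A) v E m ≠ Set.univ}.Finite) := by
  refine ⟨fun hnu r => ?_, fun hu => ?_⟩
  · exact Pool.Agent.N470.RW.fwd_gen FF hhom hprime hnu r
  · obtain ⟨r, hr⟩ := Pool.Agent.N470.RW.converse_hits FF hu
    refine ⟨r, fun G hG1 hG2 => ?_⟩
    obtain ⟨K, iK, iA, iF, A, M, v, h⟩ := hr G hG1 hG2
    refine ⟨K, iK, iA, iF, A, M, v, fun E hE => (h E hE).subset ?_⟩
    intro m hm hall
    exact hm (Set.eq_univ_of_forall hall)

end Pool.Agent.Results.MP_9410e4_ag.RandomWords
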