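import Pool.Agent.N89.HB.Asm
import Pool.Agent.N386.HB.CO
import Pool.Agent.N687.HB.CEX
import Pool.Agent.N564.HB.INT
import Pool.Agent.N973.HB.SUB
import Pool.Agent.N966.HB.EXT
import Pool.Agent.N7.HB.BRT
import Pool.Agent.N222.HB.QIR
import Pool.Agent.N169.HB.Nga
import Pool.Agent.N588.HB.NGI

/-!
# Random maps from semiabelian varieties to `ℙ^n` avoid all thin sets, over all number fields

`K` is a number field which is not totally real, `G = E_1 × ⋯ × E_r × G_m^s`, where `E_i` is an elliptic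
curve `y² = x³ + a_i x` or `y² = x³ + b_i` over `K` (`r + s` arbitrary, any rank); for `s = 0` the variety
`G` is special and potentially dense. For `c ∈ (𝓞 K)^J` let `φ_c : G → ℙ^n`, `n ≥ 1`, be the map with the
coordinates `Φ_j + ∑_x c_(j,x) Λ_(j,x)`, `j = 0, …, n`, where `Φ_j`, `Λ_(j,x)` are polynomials over `𝓞 K`
in the homogeneous coordinates of the points of the `E_i` and in the coordinates of the torus, of the
same multidegree, and each linear system `(Λ_(j,x))_x` has no base points on `G`.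

Let `L` be a finite extension of `K` and `Z ⊂ ℙ^n(L)` a thin set (Serre): `Z` is contained in a finite
union of zero sets of polynomials `F ≠ 0` over `L` and of sets of the `t` such that `h(t; X)` has a root
in `L`, where `h(T; X)` is irreducible over `L(T)` of degree `e ≥ 2` in `X` (with coefficients which are
homogeneous of the same degree in `T = (T_0, …, T_n)`); nothing is assumed about the Galois group of `h`
or its field of constants.

**Theorem.** For almost all `c` the set `φ_c(G(L))` is disjoint to `Z` (for `s > 0`: the image of the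
points with `S`-units as torus coordinates).

1. For all `L`, `Z` and `S ≥ 1` at most `(2H+1)^(|J|N) exp(-c₀ log H / log log H)` of the
`(2H+1)^(|J|N)` vectors `c` of size at most `H` are such that this is false, `N = [K : ℚ]`, for
`H ≥ H₀`; `c₀ > 0` and `H₀` depend on `L`, `Z`, `S`.

2. There is ONE exceptional set `𝓔`, with at most `(2H+1)^(|J|N) exp(-log H / (log log H)²)` elements of
size at most `H` (`H ≥ H₀`), such that for ALL finite extensions `L`, ALL thin sets `Z ⊂ ℙ^n(L)` and all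
`S` all but finitely many `c ∉ 𝓔` have the property.

So for every variety `Y` over `L` with a generically finite dominant map `Y → ℙ^n` of degree at least two
the variety `G ×_(ℙ^n) Y` (the fibre product with `φ_c`) has no `L`-rational points, if `c ∉ 𝓔` is
sufficiently large.

Written by helper89 with helpers 7, 169, 222, 386, 564, 588, 687, 966, 973 (project HB) and the authors of
the projects HG and HX (see the imported files).
-/

set_option autoImplicit false

namespace Pool.Agent.Results.MP_9410e4_ag.ThinSetsOverAllExtensions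

open Polynomial NumberField

/-- polynomials with coefficients in `O` in the homogeneous coordinates `V_(i,j)`, `i < r`, `j < 3`,
of points in `r` planes and the coordinates `u_l` of a torus of dimension `s` -/
abbrev Pol (O : Type) [CommRing O] (r s : ℕ) : Type := MvPolynomial ((Fin r × Fin 3) ⊕ Fin s) O

/-- homogeneous of degree `d i` in `V_i` -/
def Homog {O : Type} [CommRing O] {r s : ℕ} (F : Pol O r s) (d : Fin r → ℕ) : Prop :=
  ∀ μ ∈ F.support, ∀ i, ∑ j, μ (Sum.inl (i, j)) = d i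

/-- the value `F(V, u)`; the coefficients are mapped by `φ` -/
noncomputable def val {O k : Type} [CommRing O] [CommRing k] (φ : O →+* k) {r s : ℕ}
    (F : Pol O r s) (V : Fin r → Fin 3 → k) (u : Fin s → k) : k :=
  MvPolynomial.eval₂ φ (Sum.elim (fun ij => V ij.1 ij.2) u) F

/-- `(V, u)` represents a point of `E_1 × ⋯ × E_r × G_m^s`, `E_i : y² = x³ + a_i x + b_i` -/
def OnG {k : Type} [Field k] {r s : ℕ} (a b : Fin r → ℤ) (V : Fin r → Fin 3 → k) (u : Fin s → k) :
    Prop :=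
  (∀ i, V i ≠ 0 ∧ V i 1 ^ 2 * V i 2 = V i 0 ^ 3 + a i * V i 0 * V i 2 ^ 2 + b i * V i 2 ^ 3) ∧
    ∀ l, u l ≠ 0

/-- the embedding of `𝓞 K` in `ℂ` -/
noncomputable def emb {K : Type} [Field K] (σ : K →+* ℂ) : 𝓞 K →+* ℂ :=
  σ.comp (algebraMap (𝓞 K) K)

/-- the inclusion of `𝓞 K` in the extension `L` of `K` -/
noncomputable def incl (K L : Type) [Field K] [Field L] [Algebra K L] : 𝓞 K →+* L :=
  (algebraMap K L).comp (algebraMap (𝓞 K) K)

/-- `x` is an `S`-unit (for `x ≠ 0`): `S^n x` and `S^n x⁻¹` are algebraic integers for some `n` -/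
def SUnit {L : Type} [Field L] (S : ℕ) (x : L) : Prop :=
  ∃ n : ℕ, IsIntegral ℤ ((S : L) ^ n * x) ∧ IsIntegral ℤ ((S : L) ^ n * x⁻¹)

/-- the `j`-th coordinate of the point `φ_c(V, u)` over `L`; the vector `c` represents the coefficients
`c_(j,x) = ∑_i c_((j,x),i) ω_i ∈ 𝓞 K` -/
noncomputable def coord {K L : Type} [Field K] [NumberField K] [Field L] [Algebra K L] {N r s n : ℕ}
    (ω : Module.Basis (Fin N) ℤ (𝓞 K)) (Φ : Fin (n + 1) → Pol (𝓞 K) r s)
    {ι : Fin (n + 1) → Type} [∀ j, Fintype (ι j)] (Λ : (j : Fin (n + 1)) → ι j → Pol (𝓞 K) r s)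
    (c : (Σ j, ι j) × Fin N → ℤ) (V : Fin r → Fin 3 → L) (u : Fin s → L) (j : Fin (n + 1)) : L :=
  val (incl K L) (Φ j) V u +
    ∑ x, incl K L (∑ i, c (⟨j, x⟩, i) • ω i) * val (incl K L) (Λ j x) V u

/-- `A` is one of the two basic kinds of thin subsets of `ℙ^n(L)` (in homogeneous coordinates): the
zeros of a homogeneous polynomial `F ≠ 0`, or the `t` such that `h(t; X)` has a root in `L`, where
`h(T; X) = ∑_(i ≤ e) h_i(T) X^i` is irreducible over the field `L(T)` (the fraction field of `(𝓞 L)[T]`),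
of degree `e ≥ 2`, and the `h_i` are homogeneous of the same degree -/
def BasicThin {L : Type} [Field L] {n : ℕ} (A : Set (Fin (n + 1) → L)) : Prop :=
  (∃ (F : MvPolynomial (Fin (n + 1)) (𝓞 L)) (D : ℕ), F ≠ 0 ∧ F.IsHomogeneous D ∧
    A = {t | MvPolynomial.eval₂ (algebraMap (𝓞 L) L) t F = 0}) ∨
  (∃ (e : ℕ) (h : Fin (e + 1) → MvPolynomial (Fin (n + 1)) (𝓞 L)) (D : ℕ), 2 ≤ e ∧
    (∀ i, (h i).IsHomogeneous D) ∧ h (Fin.last e) ≠ 0 ∧
    Irreducible (∑ i, C (algebraMap (MvPolynomial (Fin (n + 1)) (𝓞 L))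
      (FractionRing (MvPolynomial (Fin (n + 1)) (𝓞 L))) (h i)) * X ^ (i : ℕ)) ∧
    A = {t | ∃ x : L, ∑ i, MvPolynomial.eval₂ (algebraMap (𝓞 L) L) t (h i) * x ^ (i : ℕ) = 0})

/-- thin sets: subsets of finite unions of basic thin sets -/
def Thin {L : Type} [Field L] {n : ℕ} (Z : Set (Fin (n + 1) → L)) : Prop :=
  ∃ (m : ℕ) (A : Fin m → Set (Fin (n + 1) → L)), (∀ i, BasicThin (A i)) ∧ Z ⊆ ⋃ i, A i

/-- the set of the `c` such that for some point `P` of `G` over `L`, with `S`-units as torus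
coordinates, the point `φ_c(P)` is in `Z` -/
def Meets {K L : Type} [Field K] [NumberField K] [Field L] [Algebra K L] {N r s n : ℕ}
    (ω : Module.Basis (Fin N) ℤ (𝓞 K)) (a b : Fin r → ℤ) (Z : Set (Fin (n + 1) → L))
    (Φ : Fin (n + 1) → Pol (𝓞 K) r s)
    {ι : Fin (n + 1) → Type} [∀ j, Fintype (ι j)] (Λ : (j : Fin (n + 1)) → ι j → Pol (𝓞 K) r s)
    (S : ℕ) : Set ((Σ j, ι j) × Fin N → ℤ) :=
  {c | ∃ (V : Fin r → Fin 3 → L) (u : Fin s → L), OnG a b V u ∧ (∀ l, SUnit S (u l)) ∧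
    coord ω Φ Λ c V u ∈ Z}

theorem meets_iUnion {K L : Type} [Field K] [NumberField K] [Field L] [Algebra K L] {N r s n : ℕ}
    (ω : Module.Basis (Fin N) ℤ (𝓞 K)) (a b : Fin r → ℤ) {Z : Set (Fin (n + 1) → L)}
    (Φ : Fin (n + 1) → Pol (𝓞 K) r s)
    {ι : Fin (n + 1) → Type} [∀ j, Fintype (ι j)] (Λ : (j : Fin (n + 1)) → ι j → Pol (𝓞 K) r s)
    (S : ℕ) {m : ℕ} (A : Fin m → Set (Fin (n + 1) → L)) (h : Z ⊆ ⋃ i, A i) :
    Meets ω a b Z Φ Λ S ⊆ ⋃ i, Meets ω a b (A i) Φ Λ S := by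
  rintro c ⟨V, u, h1, h2, h3⟩
  obtain ⟨i, hi⟩ := Set.mem_iUnion.1 (h h3)
  exact Set.mem_iUnion.2 ⟨i, V, u, h1, h2, hi⟩

theorem result (K : Type) [Field K] [NumberField K]
    -- `K` is not totally real
    (hK : ∃ (τ : K →+* ℂ) (x : K), (τ x).im ≠ 0) (N : ℕ) (ω : Module.Basis (Fin N) ℤ (𝓞 K))
    (r s n : ℕ) (hn : 1 ≤ n) (a b : Fin r → ℤ) (hab : ∀ i, a i * b i = 0 ∧ (a i ≠ 0 ∨ b i ≠ 0))
    (σ : K →+* ℂ)
    -- the maps `φ_c`
    (Φ : Fin (n + 1) → Pol (𝓞 K) r s) (ι : Fin (n + 1) → Type) [∀ j, Fintype (ι j)]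
    (Λ : (j : Fin (n + 1)) → ι j → Pol (𝓞 K) r s) (d : Fin r → ℕ)
    (hΦ : ∀ j, Homog (Φ j) d) (hΛ : ∀ j x, Homog (Λ j x) d)
    (hbp : ∀ j V u, OnG a b V u → ∃ x, val (emb σ) (Λ j x) V u ≠ 0) :
    -- 1. the number of the exceptional `c` for one field, one thin set
    (∀ L : IntermediateField K (AlgebraicClosure K), FiniteDimensional K L →
      ∀ Z : Set (Fin (n + 1) → L), Thin Z → ∀ S : ℕ, 1 ≤ S →
      ∃ c₀ : ℝ, 0 < c₀ ∧ ∃ H₀ : ℕ, ∀ H : ℕ, H₀ ≤ H →
        (({c : (Σ j, ι j) × Fin N → ℤ | (∀ i, |c i| ≤ (H : ℤ)) ∧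
          c ∈ Meets ω a b Z Φ Λ S}.ncard : ℕ) : ℝ) ≤
          (2 * (H : ℝ) + 1) ^ (Fintype.card (Σ j, ι j) * N) *
            Real.exp (-c₀ * (Real.log H / Real.log (Real.log H)))) ∧
    -- 2. one exceptional set for all finite extensions `L`, all thin sets `Z` and all `S`
    ∃ E : Set ((Σ j, ι j) × Fin N → ℤ),
      (∃ H₀ : ℕ, ∀ H : ℕ, H₀ ≤ H → (({c : (Σ j, ι j) × Fin N → ℤ |
        (∀ i, |c i| ≤ (H : ℤ)) ∧ c ∈ E}.ncard : ℕ) : ℝ) ≤
        (2 * (H : ℝ) + 1) ^ (Fintype.card (Σ j, ι j) * N) *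
          Real.exp (-(Real.log H / Real.log (Real.log H) ^ 2))) ∧
      ∀ L : IntermediateField K (AlgebraicClosure K), FiniteDimensional K L →
        ∀ Z : Set (Fin (n + 1) → L), Thin Z → ∀ S : ℕ, 1 ≤ S →
          (Meets ω a b Z Φ Λ S \ E).Finite := by
  classical
  have hval : ∀ {k : Type} [Field k] (φ : 𝓞 K →+* k) (F : Pol (𝓞 K) r s) (V : Fin r → Fin 3 → k)
      (u : Fin s → k), val φ F V u =
        Pool.Agent.W659.SA.vl φ (Pool.Agent.N89.HL.up F) V u Fin.elim0 := fun φ F V u =>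
    (Pool.Agent.N89.HL.vl_up φ F V u Fin.elim0).symm
  have key : ∀ (L : IntermediateField K (AlgebraicClosure K)) (A : Set (Fin (n + 1) → L)) (S : ℕ),
      Meets ω a b A Φ Λ S =
        Pool.Agent.N89.HB.BadZ ω a b A (fun i => Pool.Agent.N89.HL.up (Φ i))
          (fun i x => Pool.Agent.N89.HL.up (Λ i x)) S := by
    intro L A S
    have hco : ∀ (c : (Σ j, ι j) × Fin N → ℤ) (V : Fin r → Fin 3 → L) (u : Fin s → L),
        coord ω Φ Λ c V u = Pool.Agent.N89.HL.zc (Pool.Agent.N89.GS.toL K L)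
          (fun i => Pool.Agent.N89.HL.up (Φ i)) (fun i x => Pool.Agent.N89.HL.up (Λ i x)) V u
          (Pool.Agent.N89.HL.vecJ ω c) := by
      intro c V u
      funext j
      unfold coord
      simp only [hval]
      rfl
    ext c
    constructor
    · rintro ⟨V, u, hV, hu, hc⟩
      refine ⟨V, fun l => Units.mk0 (u l) (hV.2 l), hV.1, fun l => ?_, ?_⟩
      · obtain ⟨n, hn1, hn2⟩ := hu l
        exact ⟨n, hn1, by simpa using hn2⟩
      · rw [hco] at hc
        exact hc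
    · rintro ⟨V, u, hV, hu, hc⟩
      refine ⟨V, fun l => ((u l : Lˣ) : L), ⟨hV, fun l => (u l).ne_zero⟩, fun l => ?_, ?_⟩
      · obtain ⟨n, hn1, hn2⟩ := hu l
        exact ⟨n, hn1, by simpa using hn2⟩
      · rw [hco]
        exact hc
  have hbp' : ∀ i (V : Fin r → Fin 3 → ℂ) (u : Fin s → ℂ), Pool.Agent.N89.GS.OnB a b V u →
      ∃ x, Pool.Agent.W659.SA.vl (Pool.Agent.W659.SA.toC σ)
        (Pool.Agent.N89.HL.up (Λ i x)) V u Fin.elim0 ≠ 0 := fun i V u hV => by
    obtain ⟨x, hx⟩ := hbp i V u ⟨hV.1, hV.2⟩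
    refine ⟨x, ?_⟩
    rw [hval] at hx
    exact hx
  have hCEX := Pool.Agent.N687.HB.CEX.main Pool.Agent.N386.HB.CO.main
  have hBRT := Pool.Agent.N7.HB.BRT.main Pool.Agent.N564.HB.main Pool.Agent.N973.HB.SUB.main
    Pool.Agent.N966.HB.main
  have hNGI := Pool.Agent.N588.HB.NGI.main Pool.Agent.N169.HB.Nga.main
  have basic : ∀ L : IntermediateField K (AlgebraicClosure K), FiniteDimensional K L →
      ∀ A : Set (Fin (n + 1) → L), BasicThin A → ∀ S : ℕ, 1 ≤ S →
      Pool.Agent.N89.HB.Few (Meets ω a b A Φ Λ S) := by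
    rintro L hL A hA S hS
    have : NumberField L := NumberField.of_module_finite K L
    rw [key]
    rcases hA with ⟨F, D, hF0, hF, rfl⟩ | ⟨e, h, D, he, hh, hl, hirr, rfl⟩
    · exact Pool.Agent.N89.HB.zeroPart hCEX hBRT Pool.Agent.N222.HB.main K L hK N ω r s n D hn a b
        hab F hF hF0 σ (fun i => Pool.Agent.N89.HL.up (Φ i)) ι
        (fun i x => Pool.Agent.N89.HL.up (Λ i x)) d (fun i => Pool.Agent.N89.HL.mhomog_up (hΦ i))
        (fun i x => Pool.Agent.N89.HL.mhomog_up (hΛ i x)) hbp' S hS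
    · refine Pool.Agent.N89.HB.irrPart hCEX hBRT Pool.Agent.N222.HB.main hNGI K L hK N ω r s n e D hn
        he a b hab h hh hl ?_ σ (fun i => Pool.Agent.N89.HL.up (Φ i)) ι
        (fun i x => Pool.Agent.N89.HL.up (Λ i x)) d (fun i => Pool.Agent.N89.HL.mhomog_up (hΦ i))
        (fun i x => Pool.Agent.N89.HL.mhomog_up (hΛ i x)) hbp' S hS
      unfold Pool.Agent.N89.HB.gpol
      simp only [MvPolynomial.map_id]
      exact hirr
  have part1 : ∀ L : IntermediateField K (AlgebraicClosure K), FiniteDimensional K L →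
      ∀ Z : Set (Fin (n + 1) → L), Thin Z → ∀ S : ℕ, 1 ≤ S →
      Pool.Agent.N89.HB.Few (Meets ω a b Z Φ Λ S) := by
    rintro L hL Z ⟨m, A, hA, hZ⟩ S hS
    rcases Nat.eq_zero_or_pos m with hm | hm
    · subst hm
      refine ⟨1, one_pos, 0, fun H _ => ?_⟩
      have h0 : {c : (Σ j, ι j) × Fin N → ℤ | (∀ i, |c i| ≤ (H : ℤ)) ∧
          c ∈ Meets ω a b Z Φ Λ S} = ∅ := by
        rw [Set.eq_empty_iff_forall_notMem]
        rintro c ⟨-, V, u, -, -, h3⟩
        obtain ⟨i, -⟩ := Set.mem_iUnion.1 (hZ h3)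
        exact i.elim0
      rw [h0, Set.ncard_empty, Nat.cast_zero]
      positivity
    · have : Nonempty (Fin m) := ⟨⟨0, hm⟩⟩
      exact Pool.Agent.N89.HX.union_bound (I := Fin m)
        (fun (c : (Σ j, ι j) × Fin N → ℤ) (H : ℕ) => ∀ i, |c i| ≤ (H : ℤ))
        (fun H => Pool.Agent.N89.HL.boxJ_finite H) (Fintype.card (Σ j, ι j) * N)
        (fun i => Meets ω a b (A i) Φ Λ S) (fun i => basic L hL (A i) (hA i) S hS) _
        (meets_iUnion ω a b Φ Λ S A hZ)
  refine ⟨part1, ?_⟩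
  -- countably many fields and basic thin sets
  have hct : Countable {L : IntermediateField K (AlgebraicClosure K) // FiniteDimensional K L} := by
    have hp : ∀ L : {L : IntermediateField K (AlgebraicClosure K) // FiniteDimensional K L},
        ∃ θ : AlgebraicClosure K, IntermediateField.adjoin K {θ} = L.1 := by
      rintro ⟨L, hL⟩
      obtain ⟨α, hα⟩ := Field.exists_primitive_element K L
      refine ⟨α, ?_⟩
      have h2 : (IntermediateField.adjoin K {α}).map L.val =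
          IntermediateField.adjoin K {(α : AlgebraicClosure K)} := by
        rw [IntermediateField.adjoin_map, Set.image_singleton]
        rfl
      rw [← h2, hα, ← AlgHom.fieldRange_eq_map]
      exact L.fieldRange_val
    choose θ hθ using hp
    have hinj : Function.Injective θ := by
      intro L L' hLL
      apply Subtype.ext
      rw [← hθ L, ← hθ L', hLL]
    exact hinj.countable
  let Fd : Type := {L : IntermediateField K (AlgebraicClosure K) // FiniteDimensional K L}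
  have hcL : ∀ L : Fd, Countable (𝓞 L.1) := fun L => by
    have : Function.Injective (fun x : 𝓞 L.1 => ((x : L.1) : AlgebraicClosure K)) := by
      intro x y hxy
      exact RingOfIntegers.ext (Subtype.ext hxy)
    exact this.countable
  have hcM : ∀ L : Fd, Countable (MvPolynomial (Fin (n + 1)) (𝓞 L.1)) := fun L => by
    have := hcL L
    rw [← Cardinal.mk_le_aleph0_iff]
    refine MvPolynomial.cardinalMk_le_max.trans ?_
    simp
  have hcB : ∀ L : Fd, Countable {A : Set (Fin (n + 1) → L.1) // BasicThin A} := fun L => by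
    have := hcM L
    have h1 : {A : Set (Fin (n + 1) → L.1) | BasicThin A} ⊆
        (Set.range fun F : MvPolynomial (Fin (n + 1)) (𝓞 L.1) =>
          {t : Fin (n + 1) → L.1 | MvPolynomial.eval₂ (algebraMap (𝓞 L.1) L.1) t F = 0}) ∪
        (Set.range fun z : Σ e : ℕ, (Fin (e + 1) → MvPolynomial (Fin (n + 1)) (𝓞 L.1)) =>
          {t : Fin (n + 1) → L.1 | ∃ x : L.1,
            ∑ i, MvPolynomial.eval₂ (algebraMap (𝓞 L.1) L.1) t (z.2 i) * x ^ (i : ℕ) = 0}) := by
      rintro A (⟨F, D, -, -, rfl⟩ | ⟨e, h, D, -, -, -, -, rfl⟩)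
      · exact Or.inl ⟨F, rfl⟩
      · exact Or.inr ⟨⟨e, h⟩, rfl⟩
    exact (((Set.countable_range _).union (Set.countable_range _)).mono h1).to_subtype
  let I : Type := Σ L : Fd, {A : Set (Fin (n + 1) → L.1) // BasicThin A} × {S : ℕ // 1 ≤ S}
  have : Countable I := inferInstance
  obtain ⟨E, hE1, hE2⟩ := Pool.Agent.N89.GS.diag (X := (Σ j, ι j) × Fin N → ℤ) (I := I)
    (fun (c : (Σ j, ι j) × Fin N → ℤ) (H : ℕ) => ∀ i, |c i| ≤ (H : ℤ))
    (fun c H H' h hc i => (hc i).trans (by exact_mod_cast h))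
    (fun H => Pool.Agent.N89.HL.boxJ_finite H) (Fintype.card (Σ j, ι j) * N)
    (fun z => Meets ω a b z.2.1.1 Φ Λ z.2.2.1)
    (fun z => basic z.1.1 z.1.2 z.2.1.1 z.2.1.2 z.2.2.1 z.2.2.2)
  refine ⟨E, hE1, fun L hL Z hZ S hS => ?_⟩
  obtain ⟨m, A, hA, hZ⟩ := hZ
  refine (Set.finite_iUnion fun i => hE2 ⟨⟨L, hL⟩, ⟨A i, hA i⟩, ⟨S, hS⟩⟩).subset ?_
  rintro c ⟨h1, h2⟩
  obtain ⟨i, hi⟩ := Set.mem_iUnion.1 (meets_iUnion ω a b Φ Λ S A hZ h1)
  exact Set.mem_iUnion.2 ⟨i, hi, h2⟩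

end Pool.Agent.Results.MP_9410e4_ag.ThinSetsOverAllExtensions
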