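import Mathlib
import Pool.Agent.N626.Kj

/-!
# Unirational varieties and sequences given by linear recurrences

Let `X` be a complex projective variety, and let `X°` be the complement of the hypersurface `Q = 0`
in `X` (`Q = 1` is allowed; then `X° = X`). We prove that `X°` is dominated by a torus, for `Q = 1`
that `X` is unirational, if and only if there is a sequence `x_m` of points of `X°` given by linear
recurrences with polynomial coefficients (a P-recursive sequence) such that the points `(m, x_m)` are
Zariski-dense in the product of the affine line and `X`. Here `m` can be replaced by `q ^ m`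
(q-holonomic sequences), or by any other sequence `t_m` of different complex numbers with
`t_{m+1} = α t_m + β`. A further equivalent condition is that there is a Zariski-dense sequence of
points of `X°` given by linear recurrences with constant coefficients.
-/

set_option autoImplicit false

namespace Pool.Agent.Results.MP_9410e4_ag.UnirationalSequences

open MvPolynomial
open Pool.Agent.TH143.DE (RecAlong)
open Pool.Agent.N626

variable {N : ℕ}

/-- `p` is the ideal of a variety in the projective space: a prime ideal, generated by forms, which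
does not contain all the variables. -/
structure IsVariety (p : Ideal (MvPolynomial (Fin (N + 1)) ℂ)) : Prop where
  prime : p.IsPrime
  hom : ∀ G ∈ p, ∀ D, homogeneousComponent D G ∈ p
  ne : ∃ l, (X l : MvPolynomial (Fin (N + 1)) ℂ) ∉ p

/-- The complement of `Q = 0` in the variety with the ideal `p` is dominated by the torus of
dimension `r`, for some `r`: there are polynomials `w_j` in `r` variables such that the points
`(w_0(t) : … : w_N(t))` are contained in the variety and Zariski-dense in it, and such that
`Q (w(t)) ≠ 0` for every `t` with nonzero coordinates. For `Q = 1` this says that the variety is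
unirational. -/
def TorusDominated (p : Ideal (MvPolynomial (Fin (N + 1)) ℂ)) (Q : MvPolynomial (Fin (N + 1)) ℂ) :
    Prop :=
  ∃ (r : ℕ) (w : Fin (N + 1) → MvPolynomial (Fin r) ℂ), (∀ G ∈ p, aeval w G = 0) ∧
    (∀ G : MvPolynomial (Fin (N + 1)) ℂ, (∃ e, G.IsHomogeneous e) → aeval w G = 0 → G ∈ p) ∧
    ∀ t : Fin r → ℂ, (∀ k, t k ≠ 0) → eval t (aeval w Q) ≠ 0

/-- The points `x m` in the complement of `Q = 0` in the variety with the ideal `p` are given by
homogeneous coordinates which satisfy nontrivial linear recurrences whose coefficients are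
polynomials in `t m`; the values of `Q` satisfy a recurrence of order one of this kind (this condition
is empty if `Q` is a constant); and the points `(t m, x m)` are Zariski-dense in the product of the
affine line and the variety. For `t m = m` the sequence `x` is P-recursive. -/
structure RecPoints (t : ℕ → ℂ) (p : Ideal (MvPolynomial (Fin (N + 1)) ℂ))
    (Q : MvPolynomial (Fin (N + 1)) ℂ) (x : ℕ → Fin (N + 1) → ℂ) : Prop where
  ne : ∀ m, x m ≠ 0
  on : ∀ G ∈ p, ∀ m, eval (x m) G = 0
  off : ∀ m, eval (x m) Q ≠ 0
  eq : ∀ j, RecAlong t fun m => x m j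
  bd : ∃ P R : Polynomial ℂ, P ≠ 0 ∧
    ∀ m, P.eval (t m) * eval (x (m + 1)) Q = R.eval (t m) * eval (x m) Q
  dense : PairDense t p x

/-- The points `x m` in the complement of `Q = 0` in the variety with the ideal `p` are given by
homogeneous coordinates which satisfy linear recurrences with constant coefficients; the values of
`Q` form a geometric sequence (this condition is empty if `Q` is a constant); and the points `x m` are
Zariski-dense in the variety. -/
structure ConstRecPoints (p : Ideal (MvPolynomial (Fin (N + 1)) ℂ))
    (Q : MvPolynomial (Fin (N + 1)) ℂ) (x : ℕ → Fin (N + 1) → ℂ) : Prop where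
  ne : ∀ m, x m ≠ 0
  on : ∀ G ∈ p, ∀ m, eval (x m) G = 0
  off : ∀ m, eval (x m) Q ≠ 0
  eq : ∀ j, ∃ (n : ℕ) (a : ℕ → ℂ), a n ≠ 0 ∧
    ∀ m, ∑ k ∈ Finset.range (n + 1), a k * x (m + k) j = 0
  bd : ∃ c : ℂ, ∀ m, eval (x (m + 1)) Q = c * eval (x m) Q
  dense : ∀ G : MvPolynomial (Fin (N + 1)) ℂ, (∃ e, G.IsHomogeneous e) →
    (∀ m, eval (x m) G = 0) → G ∈ p

/-- Let `p` be the ideal of a variety in the complex projective space, and let `Q` be a form. The
following conditions are equivalent.

(1) The complement of `Q = 0` in the variety is dominated by a torus; for `Q = 1` this means that the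
variety is unirational.

(2) There is a Zariski-dense sequence of points of the complement given by linear recurrences with
constant coefficients.

(3) There is a P-recursive sequence `x` of points of the complement such that the points `(m, x m)`
are Zariski-dense in the product of the affine line and the variety.

(4) The same as (3) with some sequence `t` of different complex numbers, `t_{m+1} = α t_m + β`, in the
place of the sequence of the natural numbers; for instance `t_m = q ^ m`. -/
theorem result (p : Ideal (MvPolynomial (Fin (N + 1)) ℂ)) (hp : IsVariety p)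
    (Q : MvPolynomial (Fin (N + 1)) ℂ) {q : ℕ} (hQ : Q.IsHomogeneous q) :
    List.TFAE [TorusDominated p Q,
      ∃ x, ConstRecPoints p Q x,
      ∃ x, RecPoints (fun m => (m : ℂ)) p Q x,
      ∃ (t : ℕ → ℂ) (α β : ℂ), Function.Injective t ∧ α ≠ 0 ∧ (∀ m, t (m + 1) = α * t m + β) ∧
        ∃ x, RecPoints t p Q x] := by
  obtain ⟨l, hl⟩ := hp.ne
  tfae_have 1 → 2 := by
    rintro ⟨r, w, h1, h2, h3⟩
    obtain ⟨x, e1, e2, e3, e4, e5, e6⟩ := exists_seq hl h1 h2 h3
    refine ⟨x, e1, e2, e3, e4, e5, fun G ⟨D, hG⟩ hz => ?_⟩
    exact e6 D 1 (fun _ => G) (fun _ => hG) (fun m => by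
      rw [Finset.sum_range_one, hz m, mul_zero]) 0 one_pos
  tfae_have 1 → 3 := by
    rintro ⟨r, w, h1, h2, h3⟩
    obtain ⟨x, e1, e2, e3, e4, ⟨c, e5⟩, e6⟩ := exists_seq hl h1 h2 h3
    refine ⟨x, e1, e2, e3, fun j => ?_, ⟨1, Polynomial.C c, one_ne_zero, fun m => ?_⟩, e6⟩
    · obtain ⟨n, a, han, ha⟩ := e4 j
      refine ⟨n, fun k => Polynomial.C (a k), ⟨n, le_rfl, ?_⟩, fun m => ?_⟩
      · rw [Ne, Polynomial.C_eq_zero]
        exact han
      · simp only [Polynomial.eval_C]
        exact ha m
    · rw [Polynomial.eval_one, Polynomial.eval_C, one_mul, e5 m]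
  tfae_have 3 → 4 := fun h => ⟨fun m => (m : ℂ), 1, 1, Nat.cast_injective, one_ne_zero,
    fun m => by push_cast; ring, h⟩
  tfae_have 4 → 1 := by
    rintro ⟨t, α, β, htI, hα, ht, x, hx⟩
    obtain ⟨r, w, h1, h2, h3⟩ := torus_of_rat htI hα ht hp.prime hl hQ hx.on hx.off hx.eq hx.bd
      hx.dense
    exact ⟨r, w, fun G hG => on_comp hp.hom h1 hG, h2, h3⟩
  tfae_have 2 → 1 := by
    rintro ⟨x, hx⟩
    obtain ⟨r, w, h1, h2, h3⟩ := torus_of_const hp.prime hl hQ hx.ne hx.on hx.off hx.eq hx.bd
      hx.dense
    exact ⟨r, w, fun G hG => on_comp hp.hom h1 hG, h2, h3⟩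
  tfae_finish

end Pool.Agent.Results.MP_9410e4_ag.UnirationalSequences
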